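import Pool.Agent.Y166.CS.Stm2

/-!
Project CS: with one root the surface is quasihomogeneous after a translation.
-/

set_option autoImplicit false

namespace Pool.Agent.Y435.CS

open Pool.Agent.Results.MP_c4712b_ag.ManyNodesFamily (Poly3 surf IsQuasihomogeneous)

/-- translation of the first coordinate -/
noncomputable def tr (a : ℂ) : Poly3 →ₐ[ℂ] Poly3 :=
  MvPolynomial.aeval ![MvPolynomial.X 0 + MvPolynomial.C a, MvPolynomial.X 1, MvPolynomial.X 2]

theorem tr_X0 (a : ℂ) : tr a (MvPolynomial.X 0) = MvPolynomial.X 0 + MvPolynomial.C a := by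
  simp [tr]

theorem tr_X1 (a : ℂ) : tr a (MvPolynomial.X 1) = MvPolynomial.X 1 := by
  simp [tr]

theorem tr_X2 (a : ℂ) : tr a (MvPolynomial.X 2) = MvPolynomial.X 2 := by
  simp [tr]

theorem tr_C (a b : ℂ) : tr a (MvPolynomial.C b) = MvPolynomial.C b := by
  simp [tr]

theorem tr_tr (a b : ℂ) (h : a + b = 0) : (tr a).comp (tr b) = AlgHom.id ℂ Poly3 := by
  apply MvPolynomial.algHom_ext
  intro i
  fin_cases i
  · show tr a (tr b (MvPolynomial.X 0)) = MvPolynomial.X 0
    rw [tr_X0, map_add, tr_X0, tr_C, add_assoc, ← map_add, h, map_zero, add_zero]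
  · show tr a (tr b (MvPolynomial.X 1)) = MvPolynomial.X 1
    rw [tr_X1, tr_X1]
  · show tr a (tr b (MvPolynomial.X 2)) = MvPolynomial.X 2
    rw [tr_X2, tr_X2]

theorem done : Pool.Agent.Y166.CS.S_ONE := by
  intro a c m k _ hk
  refine ⟨AlgEquiv.ofAlgHom (tr a) (tr (-a)) (tr_tr _ _ (by ring)) (tr_tr _ _ (by ring)), ?_⟩
  have e : (AlgEquiv.ofAlgHom (tr a) (tr (-a)) (tr_tr _ _ (by ring)) (tr_tr _ _ (by ring)) :
      Poly3 ≃ₐ[ℂ] Poly3)
      (surf (Polynomial.C c * (Polynomial.X - Polynomial.C a) ^ m) k) =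
      MvPolynomial.C c * MvPolynomial.X 0 ^ m * MvPolynomial.X 2 - MvPolynomial.X 1 ^ k := by
    show tr a (surf (Polynomial.C c * (Polynomial.X - Polynomial.C a) ^ m) k) = _
    unfold surf
    rw [map_sub, map_mul, map_pow, tr_X1, tr_X2, ← Polynomial.aeval_algHom_apply, tr_X0]
    simp only [map_mul, map_pow, map_sub, Polynomial.aeval_X, Polynomial.aeval_C]
    have e2 : ∀ b : ℂ, (algebraMap ℂ Poly3) b = MvPolynomial.C b := fun b => rfl
    rw [e2, e2, add_sub_cancel_right]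
  rw [e]
  obtain ⟨w2, hw2⟩ : ∃ w2, m + w2 = k * (m + 1) := ⟨k * (m + 1) - m, by nlinarith [Nat.sub_add_cancel (show m ≤ k * (m + 1) by nlinarith)]⟩
  refine ⟨![1, m + 1, w2], ?_, (k * (m + 1) : ℕ), ?_⟩
  · intro i
    fin_cases i
    · show 0 < 1
      exact one_pos
    · show 0 < m + 1
      omega
    · show 0 < w2
      nlinarith
  · intro t _ x
    simp only [map_sub, map_mul, map_pow, MvPolynomial.eval_C, MvPolynomial.eval_X,
      Matrix.cons_val_zero, Matrix.cons_val_one, Matrix.cons_val]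
    rw [zpow_natCast, ← hw2]
    have e3 : (t ^ (m + 1)) ^ k = t ^ (m + w2) := by
      rw [← pow_mul, hw2, mul_comm]
    rw [mul_pow _ _ k, e3, pow_add]
    ring

end Pool.Agent.Y435.CS
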